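import Mathlib

namespace Pool.Agent.Lib.MP_51c9ba_ag

open Polynomial

/-- unmixedness of the ideal `(b, F)` for `F` monic and prime over a factorial ring -/
theorem mem_of_monic {A : Type} [CommRing A] [IsDomain A] [IsNoetherianRing A]
    [UniqueFactorizationMonoid A] {F b a : A[X]} (hF : F.Monic) (hp : Prime F) (hb : ¬ F ∣ b)
    (T : Set A[X]) (hT : ∀ f ∈ T, ∃ q, F ∣ f * a - b * q)
    (hh : ∀ P : Ideal A[X], P.IsPrime → F ∈ P → T ⊆ P → 3 ≤ P.height) :
    ∃ q, F ∣ a - b * q := by
  classical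
  have : IsDomain (AdjoinRoot F) := AdjoinRoot.isDomain_of_prime hp
  let v := (AdjoinRoot.powerBasis' hF).basis
  have : Module.Finite A (AdjoinRoot F) := (AdjoinRoot.powerBasis' hF).finite
  have : Algebra.IsIntegral A (AdjoinRoot F) := inferInstance
  set mk := AdjoinRoot.mk F with hmk
  have hsurj : Function.Surjective mk := AdjoinRoot.mk_surjective
  have hb0 : mk b ≠ 0 := fun h => hb (AdjoinRoot.mk_eq_zero.1 h)
  have hne := Ideal.comap_ne_bot_of_integral_mem (R := A) (I := Ideal.span {mk b}) hb0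
    (Ideal.mem_span_singleton_self _) (Algebra.IsIntegral.isIntegral _)
  obtain ⟨δ, hδ, hδ0⟩ := Submodule.exists_mem_ne_zero_of_ne_bot hne
  obtain ⟨bs, hbs⟩ : mk b ∣ algebraMap A (AdjoinRoot F) δ := Ideal.mem_span_singleton.1 hδ
  have hinj : ∀ s : A, algebraMap A (AdjoinRoot F) s = 0 → s = 0 := by
    intro s hs
    have : Module.Free A (AdjoinRoot F) := Module.Free.of_basis v
    exact (FaithfulSMul.algebraMap_injective A (AdjoinRoot F)) (by simpa using hs)
  have hbs0 : bs ≠ 0 := by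
    rintro rfl
    exact hδ0 (hinj δ (by simpa using hbs))
  by_contra hcon
  have hj : ∃ j, ¬ δ ∣ v.repr (mk a * bs) j := by
    by_contra hall
    push Not at hall
    choose c hc using hall
    apply hcon
    obtain ⟨q, hq⟩ := hsurj (∑ j, c j • v j)
    refine ⟨q, AdjoinRoot.mk_eq_zero.1 ?_⟩
    have h1 : mk a * bs = δ • ∑ j, c j • v j := by
      conv_lhs => rw [← v.sum_repr (mk a * bs)]
      rw [Finset.smul_sum]
      exact Finset.sum_congr rfl fun j _ => by rw [hc j, mul_smul]
    rw [Algebra.smul_def, hbs, ← hq] at h1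
    have h2 : (mk a - mk b * mk q) * bs = 0 := by rw [sub_mul, h1]; ring
    have h3 := (mul_eq_zero.1 h2).resolve_right hbs0
    change mk (a - b * q) = 0
    rw [map_sub, map_mul]; exact h3
  obtain ⟨j, hj⟩ := hj
  obtain ⟨δ', c', g, hrel, hδ', hc'⟩ :=
    UniqueFactorizationMonoid.exists_reduced_factors δ hδ0 (v.repr (mk a * bs) j)
  have hg0 : g ≠ 0 := by rintro rfl; exact hδ0 (by simpa using hδ'.symm)
  have hδ'0 : δ' ≠ 0 := by rintro rfl; exact hδ0 (by simpa using hδ'.symm)
  have hnu : ¬ IsUnit δ' := by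
    intro hu
    apply hj
    rw [← hδ', ← hc']
    exact mul_dvd_mul_left g hu.dvd
  obtain ⟨π, hπi, hπ⟩ := WfDvdMonoid.exists_irreducible_factor hnu hδ'0
  have hπp : Prime π := hπi.prime
  have hsp : (Ideal.span {π}).IsPrime := (Ideal.span_singleton_prime hπp.ne_zero).2 hπp
  let J : Ideal (AdjoinRoot F) := (Ideal.span {mk b}).colon {mk a}
  have hJ : ∀ r, r ∈ J ↔ mk b ∣ r * mk a := by
    intro r
    simp only [J, Submodule.mem_colon_singleton, smul_eq_mul, Ideal.mem_span_singleton]
  have hJc : J.comap (algebraMap A (AdjoinRoot F)) ≤ Ideal.span {π} := by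
    intro s hs
    obtain ⟨r, hr⟩ := (hJ _).1 (Ideal.mem_comap.1 hs)
    have h1 : s • (mk a * bs) = δ • r := by
      rw [Algebra.smul_def, Algebra.smul_def, hbs, ← mul_assoc, hr]; ring
    have h2 : s * v.repr (mk a * bs) j = δ * v.repr r j := by
      have := congrArg (fun z => v.repr z j) h1
      simpa using this
    rw [← hc', ← hδ'] at h2
    have h3 : δ' ∣ s * c' := ⟨v.repr r j, mul_left_cancel₀ hg0 (by linear_combination h2)⟩
    exact Ideal.mem_span_singleton.2 (hπ.trans (hrel.dvd_of_dvd_mul_right h3))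
  obtain ⟨Q, hQJ, hQ, hQc⟩ := Ideal.exists_ideal_over_prime_of_isIntegral (Ideal.span {π}) J hJc
  have hFP : F ∈ Q.comap mk := by
    rw [Ideal.mem_comap, hmk, AdjoinRoot.mk_self]; exact Q.zero_mem
  have hTP : T ⊆ Q.comap mk := by
    intro f hf
    obtain ⟨q, hq⟩ := hT f hf
    refine Ideal.mem_comap.2 (hQJ ((hJ _).2 ⟨mk q, ?_⟩))
    have : mk (f * a - b * q) = 0 := AdjoinRoot.mk_eq_zero.2 hq
    rw [map_sub, map_mul, map_mul] at this
    exact sub_eq_zero.1 this
  have h3 := hh (Q.comap mk) (Ideal.comap_isPrime _ _) hFP hTP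
  have hCπ : mk (C π) = algebraMap A (AdjoinRoot F) π := by
    rw [hmk, AdjoinRoot.mk_C]; rfl
  have hmin : Q.comap mk ∈ (Ideal.span (({C π, F} : Finset A[X]) : Set A[X])).minimalPrimes := by
    refine ⟨⟨Ideal.comap_isPrime _ _, ?_⟩, ?_⟩
    · rw [Ideal.span_le]
      intro z hz
      simp only [Finset.coe_insert, Finset.coe_singleton, Set.mem_insert_iff,
        Set.mem_singleton_iff] at hz
      rcases hz with rfl | rfl
      · change mk (C π) ∈ Q
        rw [hCπ, ← Ideal.mem_comap, hQc]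
        exact Ideal.mem_span_singleton_self _
      · exact hFP
    · rintro P' ⟨hP', hle⟩ hPQ
      have hF' : F ∈ P' := hle (Ideal.subset_span (by simp))
      have hπ' : C π ∈ P' := hle (Ideal.subset_span (by simp))
      have hker : RingHom.ker mk ≤ P' := by
        intro z hz
        obtain ⟨w, rfl⟩ := AdjoinRoot.mk_eq_zero.1 (RingHom.mem_ker.1 hz)
        exact P'.mul_mem_right _ hF'
      have hQ' : (P'.map mk).IsPrime := Ideal.map_isPrime_of_surjective hsurj hker
      have hle' : P'.map mk ≤ Q := Ideal.map_le_iff_le_comap.2 hPQ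
      have heq : P'.map mk = Q := by
        by_contra hne'
        have hlt := Ideal.IsIntegral.comap_lt_comap (R := A) (lt_of_le_of_ne hle' hne')
        rw [hQc] at hlt
        refine hlt.not_ge ?_
        rw [Ideal.span_le]
        rintro z rfl
        change algebraMap A (AdjoinRoot F) _ ∈ P'.map mk
        rw [← hCπ]
        exact Ideal.mem_map_of_mem _ hπ'
      rw [← heq, Ideal.comap_map_of_surjective _ hsurj]
      exact sup_le le_rfl hker
  have h2 := Ideal.height_le_card_of_mem_minimalPrimes_span_finset hmin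
  have h4 : (({C π, F} : Finset A[X]).card : ℕ∞) ≤ 2 := by
    exact_mod_cast Finset.card_le_two
  have h5 : (3 : ℕ∞) ≤ 2 := h3.trans (h2.trans h4)
  exact absurd h5 (by decide)

/-- a linear change of coordinates makes a nonzero form monic in the first variable -/
theorem exists_equiv_monic {N d : ℕ} {F : MvPolynomial (Fin (N + 1)) ℂ} (hF : F.IsHomogeneous d)
    (h0 : F ≠ 0) :
    ∃ (e : MvPolynomial (Fin (N + 1)) ℂ ≃+* (MvPolynomial (Fin N) ℂ)[X]),
      IsUnit (e F).leadingCoeff := by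
  classical
  obtain ⟨p, hp⟩ : ∃ p : Fin (N + 1) → ℂ, MvPolynomial.eval p (MvPolynomial.X 0 * F) ≠ 0 := by
    by_contra hall
    push Not at hall
    have : (MvPolynomial.X 0 * F : MvPolynomial (Fin (N + 1)) ℂ) = 0 :=
      MvPolynomial.funext fun x => by simpa using hall x
    exact mul_ne_zero (MvPolynomial.X_ne_zero 0) h0 this
  rw [map_mul, MvPolynomial.eval_X] at hp
  have hp0 : p 0 ≠ 0 := left_ne_zero_of_mul hp
  have hpF : MvPolynomial.eval p F ≠ 0 := right_ne_zero_of_mul hp
  let t : ℂ → (MvPolynomial (Fin (N + 1)) ℂ →ₐ[ℂ] MvPolynomial (Fin (N + 1)) ℂ) := fun c =>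
    MvPolynomial.aeval fun i => if i = 0 then MvPolynomial.X 0
      else MvPolynomial.X i + MvPolynomial.C (c * p i / p 0) * MvPolynomial.X 0
  have ht : ∀ c, (t c).comp (t (-c)) = AlgHom.id _ _ := by
    intro c
    refine MvPolynomial.algHom_ext fun i => ?_
    by_cases hi : i = 0
    · simp [t, hi]
    · simp only [t, AlgHom.comp_apply, MvPolynomial.aeval_X, if_neg hi, map_add, map_mul,
        MvPolynomial.algHom_C, if_true, AlgHom.id_apply, MvPolynomial.algebraMap_eq]
      rw [add_assoc, ← add_mul, ← map_add]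
      have : c * p i / p 0 + -c * p i / p 0 = 0 := by ring
      rw [this]; simp
  let α := AlgEquiv.ofAlgHom (t 1) (t (-1)) (ht 1) (by simpa using ht (-1))
  refine ⟨α.toRingEquiv.trans (MvPolynomial.finSuccEquiv ℂ N).toRingEquiv, ?_⟩
  change IsUnit (MvPolynomial.finSuccEquiv ℂ N (t 1 F)).leadingCoeff
  have hh : (t 1 F).IsHomogeneous d := by
    have := hF.aeval (n := 1) (fun i => if i = 0 then (MvPolynomial.X 0 : MvPolynomial _ ℂ)
      else MvPolynomial.X i + MvPolynomial.C (1 * p i / p 0) * MvPolynomial.X 0) (by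
        intro i
        by_cases hi : i = 0
        · simpa [hi] using MvPolynomial.isHomogeneous_X ℂ (0 : Fin (N + 1))
        · simp only [if_neg hi]
          exact (MvPolynomial.isHomogeneous_X ℂ i).add
            ((MvPolynomial.isHomogeneous_X ℂ (0 : Fin (N + 1))).C_mul _))
    rw [one_mul d] at this
    exact this
  set q := MvPolynomial.finSuccEquiv ℂ N (t 1 F) with hq
  have hdeg : q.natDegree ≤ d := by
    rw [hq, MvPolynomial.natDegree_finSuccEquiv]
    exact (MvPolynomial.degreeOf_le_totalDegree _ _).trans hh.totalDegree_le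
  have hev : MvPolynomial.eval (Fin.cons (p 0) (0 : Fin N → ℂ) : Fin (N + 1) → ℂ) (t 1 F)
      = MvPolynomial.eval p F := by
    have : (MvPolynomial.aeval (Fin.cons (p 0) (0 : Fin N → ℂ) : Fin (N + 1) → ℂ)).comp (t 1)
        = (MvPolynomial.aeval p : MvPolynomial (Fin (N + 1)) ℂ →ₐ[ℂ] ℂ) := by
      refine MvPolynomial.algHom_ext fun i => ?_
      cases i using Fin.cases with
      | zero => simp [t]
      | succ i => simp [t, Fin.succ_ne_zero]; field_simp
    have h2 := AlgHom.congr_fun this F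
    rw [AlgHom.comp_apply, MvPolynomial.aeval_eq_eval, MvPolynomial.aeval_eq_eval] at h2
    exact h2
  have hc0 := hh.finSuccEquiv_coeff_isHomogeneous d 0 (add_zero d)
  rw [← hq] at hc0
  obtain ⟨c, hc⟩ : ∃ c, q.coeff d = MvPolynomial.C c :=
    ⟨_, MvPolynomial.totalDegree_eq_zero_iff_eq_C.1 (Nat.le_zero.1 hc0.totalDegree_le)⟩
  have hcne : c ≠ 0 := by
    rintro rfl
    apply hpF
    rw [← hev, MvPolynomial.eval_eq_eval_mv_eval', ← hq]
    have : q.map (MvPolynomial.eval (0 : Fin N → ℂ)) = 0 := by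
      ext i
      rw [coeff_map, coeff_zero]
      rcases lt_trichotomy i d with hi | rfl | hi
      · have h1 := hh.finSuccEquiv_coeff_isHomogeneous i (d - i) (by omega)
        rw [← hq] at h1
        rw [MvPolynomial.eval_zero, MvPolynomial.constantCoeff_eq]
        exact h1.coeff_eq_zero (by simp; omega)
      · rw [hc]; simp
      · rw [coeff_eq_zero_of_natDegree_lt (by omega)]; simp
    rw [this]; simp
  have hnd : q.natDegree = d :=
    le_antisymm hdeg (le_natDegree_of_ne_zero (by rw [hc]; simpa using hcne))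
  rw [leadingCoeff, hnd, hc]
  exact (Ne.isUnit hcne).map _

/-- unmixedness of `(b, F)` in the polynomial ring -/
theorem mem_of_height {N d : ℕ} {F b a : MvPolynomial (Fin (N + 1)) ℂ} (hF : F.IsHomogeneous d)
    (hp : Prime F) (hb : ¬ F ∣ b) (T : Set (MvPolynomial (Fin (N + 1)) ℂ))
    (hT : ∀ f ∈ T, ∃ q, F ∣ f * a - b * q)
    (hh : ∀ P : Ideal (MvPolynomial (Fin (N + 1)) ℂ), P.IsPrime → F ∈ P → T ⊆ P → 3 ≤ P.height) :
    ∃ q, F ∣ a - b * q := by
  obtain ⟨e, u, hu⟩ := exists_equiv_monic hF hp.ne_zero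
  set F' := C (↑u⁻¹ : MvPolynomial (Fin N) ℂ) * e F with hF'
  have hun : IsUnit (C (↑u⁻¹ : MvPolynomial (Fin N) ℂ)) := (Units.isUnit _).map _
  have hmon : F'.Monic := by
    rw [hF', Monic, leadingCoeff_mul, leadingCoeff_C, ← hu]; simp
  have hdv : ∀ z, F' ∣ e z ↔ F ∣ z := by
    intro z
    rw [hF', hun.mul_left_dvd, map_dvd_iff]
  have hpe : Prime (e F) := (MulEquiv.prime_iff e.toMulEquiv).2 hp
  have hp' : Prime F' := (associated_unit_mul_left _ _ hun).symm.prime hpe
  obtain ⟨q, hq⟩ := mem_of_monic (a := e a) hmon hp' (fun h => hb ((hdv b).1 h)) (e '' T)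
    (by
      rintro _ ⟨f, hf, rfl⟩
      obtain ⟨q, hq⟩ := hT f hf
      exact ⟨e q, by simpa using (hdv _).2 hq⟩)
    (by
      intro P hP hFP hTP
      rw [← e.height_comap P]
      refine hh _ (Ideal.comap_isPrime _ _) ?_ fun f hf => hTP ⟨f, hf, rfl⟩
      obtain ⟨w, hw⟩ := (hdv F).2 dvd_rfl
      change e F ∈ P
      rw [hw]; exact P.mul_mem_right _ hFP)
  refine ⟨e.symm q, (hdv _).1 ?_⟩
  simpa using hq

end Pool.Agent.Lib.MP_51c9ba_ag
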