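import Mathlib

namespace Pool.Agent.Lib.MP_51c9ba_ag

open MvPolynomial Finset

variable {σ : Type} [Fintype σ] [DecidableEq σ]

/-- the derivation with coefficients `ξ` -/
noncomputable def dv (ξ : σ → MvPolynomial σ ℂ) (f : MvPolynomial σ ℂ) : MvPolynomial σ ℂ :=
  ∑ l, ξ l * pderiv l f

omit [DecidableEq σ] in
theorem dv_add (ξ : σ → MvPolynomial σ ℂ) (f g : MvPolynomial σ ℂ) :
    dv ξ (f + g) = dv ξ f + dv ξ g := by
  simp [dv, mul_add, sum_add_distrib]

omit [DecidableEq σ] in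
theorem dv_mul (ξ : σ → MvPolynomial σ ℂ) (f g : MvPolynomial σ ℂ) :
    dv ξ (f * g) = f * dv ξ g + g * dv ξ f := by
  simp only [dv, Derivation.leibniz, smul_eq_mul, mul_sum, ← sum_add_distrib]
  exact sum_congr rfl fun l _ => by ring

omit [DecidableEq σ] in
theorem dv_C (ξ : σ → MvPolynomial σ ℂ) (a : ℂ) : dv ξ (C a) = 0 := by simp [dv]

theorem dv_X (ξ : σ → MvPolynomial σ ℂ) (i : σ) : dv ξ (X i) = ξ i := by
  simp [dv, pderiv_X, Pi.single_apply]

omit [DecidableEq σ] in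
theorem dv_pow (ξ : σ → MvPolynomial σ ℂ) (f : MvPolynomial σ ℂ) (n : ℕ) :
    dv ξ (f ^ (n + 1)) = (n + 1) * f ^ n * dv ξ f := by
  induction n with
  | zero => simp
  | succ n ih => rw [pow_succ, dv_mul, ih]; push_cast; ring

omit [DecidableEq σ] in
theorem dv_smul (P : MvPolynomial σ ℂ) (ξ : σ → MvPolynomial σ ℂ) (f : MvPolynomial σ ℂ) :
    dv (fun l => P * ξ l) f = P * dv ξ f := by
  simp only [dv, mul_sum, mul_assoc]

theorem dv_aeval (ξ ψ : σ → MvPolynomial σ ℂ) (f : MvPolynomial σ ℂ) :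
    dv ξ (aeval ψ f) = ∑ j, aeval ψ (pderiv j f) * dv ξ (ψ j) := by
  induction f using MvPolynomial.induction_on with
  | C a => simp [dv_C]
  | add f g hf hg => simp only [map_add, dv_add, hf, hg, add_mul, sum_add_distrib]
  | mul_X f i hf =>
    simp only [map_mul, aeval_X, dv_mul, hf, Derivation.leibniz, smul_eq_mul, map_add, add_mul,
      sum_add_distrib, mul_sum, pderiv_X]
    congr 1
    · rw [sum_eq_single i]
      · simp
      · intro j _ hj; simp [Pi.single_apply, hj.symm]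
      · simp
    · exact sum_congr rfl fun j _ => by ring

omit [Fintype σ] [DecidableEq σ] in
theorem aeval_scale {F : MvPolynomial σ ℂ} {d : ℕ} (hF : F.IsHomogeneous d)
    (h : MvPolynomial σ ℂ) : aeval (fun i => h * X i) F = h ^ d * F := by
  conv_lhs => rw [F.as_sum]
  conv_rhs => rw [F.as_sum]
  rw [map_sum, mul_sum]
  refine sum_congr rfl fun s hs => ?_
  rw [aeval_monomial, monomial_eq, Finsupp.prod, Finsupp.prod, hF.degree_eq_sum_deg_support hs]
  simp only [mul_pow, prod_mul_distrib, prod_pow_eq_pow_sum, algebraMap_eq]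
  ring

omit [DecidableEq σ] in
theorem exists_pderiv_not_dvd {F P : MvPolynomial σ ℂ} (hP : Prime P)
    (hs : ∀ x : σ → ℂ, x ≠ 0 → ∃ i, eval x (pderiv i F) ≠ 0) {ψ : σ → MvPolynomial σ ℂ}
    (hψ : ¬ ∀ j, P ∣ ψ j) : ∃ i, ¬ P ∣ aeval ψ (pderiv i F) := by
  by_contra hall
  push Not at hall
  refine hψ fun j => ?_
  let I : Ideal (MvPolynomial σ ℂ) := Ideal.span (Set.range fun i => pderiv i F)
  have hX : (X j : MvPolynomial σ ℂ) ∈ I.radical := by
    rw [← vanishingIdeal_zeroLocus_eq_radical (K := ℂ), mem_vanishingIdeal_iff]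
    intro x hx
    have : x = 0 := by
      by_contra hne
      obtain ⟨i, hi⟩ := hs x hne
      exact hi (by simpa using hx _ (Ideal.subset_span ⟨i, rfl⟩))
    simp [this]
  obtain ⟨s, hs⟩ := hX
  have hI : I ≤ Ideal.comap (aeval ψ : MvPolynomial σ ℂ →ₐ[ℂ] MvPolynomial σ ℂ)
      (Ideal.span {P}) := by
    rw [Ideal.span_le]
    rintro _ ⟨i, rfl⟩
    exact Ideal.mem_span_singleton.2 (hall i)
  have := Ideal.mem_span_singleton.1 (hI hs)
  rw [map_pow, aeval_X] at this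
  exact hP.dvd_of_dvd_pow this

theorem exists_kernel (ψ : σ → MvPolynomial σ ℂ) (i : σ) :
    ∃ ξ : σ → MvPolynomial σ ℂ, ξ ≠ 0 ∧ ∀ j, j ≠ i → dv ξ (ψ j) = 0 := by
  let L : (σ → MvPolynomial σ ℂ) →ₗ[MvPolynomial σ ℂ] ({j // j ≠ i} → MvPolynomial σ ℂ) :=
    { toFun := fun ξ j => dv ξ (ψ j)
      map_add' := fun a b => by ext1 j; simp [dv, add_mul, sum_add_distrib]
      map_smul' := fun c a => by ext1 j; simp [dv, mul_sum, mul_assoc] }
  by_contra h
  push Not at h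
  have hinj : Function.Injective L := by
    rw [injective_iff_map_eq_zero]
    intro ξ hξ
    by_contra hne
    obtain ⟨j, hj, hj'⟩ := h ξ hne
    exact hj' (congrFun hξ ⟨j, hj⟩)
  have := LinearMap.finrank_le_finrank_of_injective hinj
  simp only [Module.finrank_fintype_fun_eq_card, Fintype.card_subtype_compl,
    Fintype.card_unique] at this
  have h2 : 0 < Fintype.card σ := Fintype.card_pos_iff.2 ⟨i⟩
  omega

omit [Fintype σ] [DecidableEq σ] in
theorem not_dvd_natCast {P : MvPolynomial σ ℂ} (hP : Prime P) {n : ℕ} (hn : n ≠ 0) :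
    ¬ P ∣ (n : MvPolynomial σ ℂ) := by
  intro h
  refine hP.not_isUnit (isUnit_of_dvd_unit h ?_)
  rw [← map_natCast (C : ℂ →+* MvPolynomial σ ℂ)]
  exact (IsUnit.mk0 _ (Nat.cast_ne_zero.2 hn)).map C

/-- The key valuation inequality. -/
theorem key {F P h u : MvPolynomial σ ℂ} {d m η : ℕ} (hP : Prime P) (hF : F.IsHomogeneous d)
    (hs : ∀ x : σ → ℂ, x ≠ 0 → ∃ i, eval x (pderiv i F) ≠ 0) {φ ψ : σ → MvPolynomial σ ℂ}
    (hψh : ∀ j, (ψ j).IsHomogeneous m) (hm : m ≠ 0) (hψ : ¬ ∀ j, P ∣ ψ j)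
    (hinv : ∀ l, aeval ψ (φ l) = h * X l) (hh : h = P ^ (η + 1) * u) (hu : ¬ P ∣ u) :
    ¬ P ^ (η + 2) ∣ aeval ψ F := by
  rintro ⟨w, hw⟩
  obtain ⟨i, hi⟩ := exists_pderiv_not_dvd hP hs hψ
  have hj : ∃ j, j ≠ i ∧ ¬ P ∣ ψ j := by
    by_contra hno
    push Not at hno
    have h1 := congrArg (aeval ψ) hF.sum_X_mul_pderiv
    simp only [map_sum, map_mul, aeval_X, map_nsmul] at h1
    rw [← add_sum_erase _ _ (mem_univ i)] at h1
    have h2 : P ∣ ψ i * aeval ψ (pderiv i F) := by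
      rw [eq_sub_of_add_eq h1]
      refine dvd_sub ?_ (dvd_sum fun j hj => (hno j (mem_erase.1 hj).1).mul_right _)
      rw [hw, nsmul_eq_mul]
      exact ((dvd_pow_self P (by omega)).mul_right _).mul_left _
    refine hψ fun j => ?_
    by_cases hji : j = i
    · exact hji ▸ (hP.dvd_or_dvd h2).resolve_right hi
    · exact hno j hji
  obtain ⟨j, hji, hj⟩ := hj
  have step : ∀ ξ : σ → MvPolynomial σ ℂ, (∀ j, j ≠ i → dv ξ (ψ j) = 0) → P ∣ dv ξ P →
      ∃ ζ : σ → MvPolynomial σ ℂ, (∀ l, ξ l = P * ζ l) ∧ (∀ j, j ≠ i → dv ζ (ψ j) = 0) ∧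
        P ∣ dv ζ P := by
    rintro ξ h1 ⟨a, ha⟩
    have single : ∀ f : MvPolynomial σ ℂ, dv ξ (aeval ψ f) = aeval ψ (pderiv i f) * dv ξ (ψ i) := by
      intro f
      rw [dv_aeval, sum_eq_single i]
      · intro j _ hj; rw [h1 j hj, mul_zero]
      · simp
    have h2 : P ^ (η + 2) ∣ dv ξ (ψ i) := by
      refine hP.pow_dvd_of_dvd_mul_left _ hi ?_
      rw [← single, hw, dv_mul, dv_pow, ha]
      exact ⟨dv ξ w + w * (η + 1 + 1) * a, by push_cast; ring⟩
    obtain ⟨b, hb⟩ := h2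
    set c := (η + 1) * a * u + dv ξ u with hc
    have h3 : ∀ l, P ∣ u * ξ l + X l * c := by
      intro l
      have h4 := single (φ l)
      rw [hinv, dv_mul, dv_X, hh, dv_mul, dv_pow, ha, hb] at h4
      refine ⟨aeval ψ (pderiv i (φ l)) * b, mul_left_cancel₀ (pow_ne_zero (η + 1) hP.ne_zero) ?_⟩
      rw [hc]
      linear_combination h4
    have h4 : P ∣ c := by
      have h5 : P ∣ ∑ l, (u * ξ l + X l * c) * pderiv l (ψ j) :=
        dvd_sum fun l _ => (h3 l).mul_right _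
      have h6 : ∑ l, (u * ξ l + X l * c) * pderiv l (ψ j) =
          u * dv ξ (ψ j) + c * ∑ l, X l * pderiv l (ψ j) := by
        simp only [dv, mul_sum, ← sum_add_distrib]
        exact sum_congr rfl fun l _ => by ring
      rw [h6, h1 j hji, (hψh j).sum_X_mul_pderiv, mul_zero, zero_add, nsmul_eq_mul] at h5
      refine (hP.dvd_or_dvd h5).resolve_right fun h7 => ?_
      exact (hP.dvd_or_dvd h7).elim (not_dvd_natCast hP hm) hj
    have h5 : ∀ l, P ∣ ξ l := fun l =>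
      (hP.dvd_or_dvd ((dvd_add_left (h4.mul_left _)).1 (h3 l))).resolve_left hu
    choose ζ hζ using h5
    have h6 : ∀ f : MvPolynomial σ ℂ, dv ξ f = P * dv ζ f := fun f => by
      rw [← dv_smul]; congr 1; exact funext hζ
    refine ⟨ζ, hζ, fun j hj => ?_, ?_⟩
    · have := h1 j hj
      rw [h6] at this
      exact (mul_eq_zero.1 this).resolve_left hP.ne_zero
    · have h7 : dv ζ P = a := mul_left_cancel₀ hP.ne_zero (by rw [← h6, ha])
      rw [h7]
      rw [hc, h6] at h4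
      have h8 := (dvd_add_left (dvd_mul_right P _)).1 h4
      rcases hP.dvd_or_dvd ((hP.dvd_or_dvd h8).resolve_right hu) with h9 | h9
      · exact absurd (by exact_mod_cast h9) (not_dvd_natCast hP (n := η + 1) (by omega))
      · exact h9
  have desc : ∀ t : ℕ, ∀ ξ : σ → MvPolynomial σ ℂ, (∀ j, j ≠ i → dv ξ (ψ j) = 0) → P ∣ dv ξ P →
      ∀ l, P ^ t ∣ ξ l := by
    intro t
    induction t with
    | zero => intro ξ _ _ l; simp
    | succ t ih =>
      intro ξ h1 h2 l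
      obtain ⟨ζ, h3, h4, h5⟩ := step ξ h1 h2
      rw [h3, pow_succ']
      exact mul_dvd_mul_left _ (ih ζ h4 h5 l)
  obtain ⟨ξ, hξ, h1⟩ := exists_kernel ψ i
  obtain ⟨l, hl⟩ := Function.ne_iff.1 hξ
  obtain ⟨t, ht⟩ := FiniteMultiplicity.of_not_isUnit hP.not_isUnit (mul_ne_zero hP.ne_zero hl)
  exact ht (desc (t + 1) (fun l => P * ξ l) (fun j hj => by rw [dv_smul, h1 j hj, mul_zero])
    (by rw [dv_smul]; exact dvd_mul_right _ _) l)

omit [Fintype σ] [DecidableEq σ] in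
theorem aeval_aeval (φ ψ : σ → MvPolynomial σ ℂ) (f : MvPolynomial σ ℂ) :
    aeval φ (aeval ψ f) = aeval (fun i => aeval φ (ψ i)) f := by
  rw [← AlgHom.comp_apply, comp_aeval]

/-- One half of the degree estimate. -/
theorem half [Nonempty σ] {F G A B h h' : MvPolynomial σ ℂ} {d e m m' : ℕ}
    {φ ψ : σ → MvPolynomial σ ℂ}
    (hφh : ∀ j, (φ j).IsHomogeneous m) (hψh : ∀ j, (ψ j).IsHomogeneous m')
    (hψ : ∀ P, (∀ j, P ∣ ψ j) → IsUnit P) (hh : h ≠ 0) (hh' : h' ≠ 0)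
    (hinv : ∀ l, aeval φ (ψ l) = h * X l) (hinv' : ∀ l, aeval ψ (φ l) = h' * X l)
    (hF : F.IsHomogeneous d) (hG : G.IsHomogeneous e) (hF0 : F ≠ 0)
    (hs : ∀ x : σ → ℂ, x ≠ 0 → ∃ i, eval x (pderiv i F) ≠ 0)
    (hA : aeval φ G = F * A) (hB : aeval ψ F = G * B) :
    h'.totalDegree + 1 = m' * m ∧ B ∣ h' ∧ B ≠ 0 ∧ m' * d = e + B.totalDegree := by
  obtain ⟨i⟩ := ‹Nonempty σ›
  have hdeg : h'.totalDegree + 1 = m' * m := by
    have h1 := ((hφh i).aeval ψ hψh).totalDegree (by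
      rw [hinv']; exact mul_ne_zero hh' (X_ne_zero i))
    rwa [hinv', totalDegree_mul_of_isDomain hh' (X_ne_zero i), totalDegree_X] at h1
  have hm' : m' ≠ 0 := fun h0 => by simp [h0] at hdeg
  have h1 : h ^ d * F = F * A * aeval φ B := by
    rw [← hA, ← map_mul, ← hB, aeval_aeval, funext hinv, aeval_scale hF]
  have h2 : h ^ d = A * aeval φ B := mul_left_cancel₀ hF0 (by linear_combination h1)
  have hFψ : aeval ψ F ≠ 0 := by
    intro h0
    have : aeval φ (aeval ψ F) = h ^ d * F := by rw [aeval_aeval, funext hinv, aeval_scale hF]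
    rw [h0, map_zero] at this
    exact mul_ne_zero (pow_ne_zero _ hh) hF0 this.symm
  have hG0 : G ≠ 0 := fun h0 => hFψ (by rw [hB, h0, zero_mul])
  have hB0 : B ≠ 0 := fun h0 => hFψ (by rw [hB, h0, mul_zero])
  have hψi : ∃ j, ψ j ≠ 0 := by
    by_contra hno
    push Not at hno
    exact not_isUnit_zero (hψ 0 fun j => by rw [hno j])
  obtain ⟨j, hj⟩ := hψi
  have h3 : aeval ψ h = h' ^ m' := by
    have h4 := congrArg (aeval ψ) (hinv j)
    rw [aeval_aeval, funext hinv', aeval_scale (hψh j), map_mul, aeval_X] at h4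
    exact (mul_right_cancel₀ hj h4).symm
  have hprime : ∀ P, Prime P → P ∣ B → P ∣ h' := by
    rintro P hP ⟨B', rfl⟩
    by_contra hn
    have h5 := congrArg (aeval ψ) h2
    rw [map_pow, h3, map_mul, aeval_aeval, funext hinv', map_mul] at h5
    -- `G * (P * B')` is homogeneous, hence so is its scaling behaviour
    have h6 := aeval_scale (hF.aeval ψ hψh) h'
    rw [hB, map_mul, aeval_scale hG, map_mul] at h6
    have h7 : h' ^ e * (aeval (fun i => h' * X i) P * aeval (fun i => h' * X i) B') =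
        h' ^ (m' * d) * (P * B') := mul_left_cancel₀ hG0 (by linear_combination h6)
    have h8 : P ∣ h' ^ e * (h' ^ m') ^ d := by
      rw [h5, mul_left_comm, h7]
      exact ((dvd_mul_right P B').mul_left _).mul_left _
    rcases hP.dvd_or_dvd h8 with h9 | h9
    · exact hn (hP.dvd_of_dvd_pow h9)
    · exact hn (hP.dvd_of_dvd_pow (hP.dvd_of_dvd_pow h9))
  refine ⟨hdeg, ?_, hB0, ?_⟩
  · rw [UniqueFactorizationMonoid.dvd_iff_emultiplicity_le hB0]
    intro P hP
    by_cases hPB : P ∣ B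
    · have hfin := FiniteMultiplicity.of_not_isUnit hP.not_isUnit hh'
      obtain ⟨u, hu, hu'⟩ := hfin.exists_eq_pow_mul_and_not_dvd
      obtain ⟨η, hη⟩ : ∃ η, multiplicity P h' = η + 1 :=
        Nat.exists_eq_succ_of_ne_zero (multiplicity_ne_zero.2 (hprime P hP hPB))
      rw [hη] at hu
      have h4 := key hP hF hs hψh hm' (fun hall => hP.not_isUnit (hψ P hall)) hinv' hu hu'
      rw [hfin.emultiplicity_eq_multiplicity, hη]
      by_contra hlt
      refine h4 (hB ▸ Dvd.dvd.mul_left (pow_dvd_of_le_emultiplicity ?_) _)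
      push Not at hlt
      exact_mod_cast Order.add_one_le_of_lt hlt
    · rw [emultiplicity_eq_zero.2 hPB]; exact zero_le
  · have h4 := (hF.aeval ψ hψh).totalDegree hFψ
    rw [hB, totalDegree_mul_of_isDomain hG0 hB0, hG.totalDegree hG0] at h4
    exact h4.symm

theorem main [Nonempty σ] {F G h h' : MvPolynomial σ ℂ} {d e m m' : ℕ}
    {φ ψ : σ → MvPolynomial σ ℂ}
    (hφh : ∀ j, (φ j).IsHomogeneous m) (hψh : ∀ j, (ψ j).IsHomogeneous m')
    (hφ : ∀ P, (∀ j, P ∣ φ j) → IsUnit P) (hψ : ∀ P, (∀ j, P ∣ ψ j) → IsUnit P)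
    (hh : h ≠ 0) (hh' : h' ≠ 0)
    (hinv : ∀ l, aeval φ (ψ l) = h * X l) (hinv' : ∀ l, aeval ψ (φ l) = h' * X l)
    (hF : F.IsHomogeneous d) (hG : G.IsHomogeneous e)
    (hsF : ∀ x : σ → ℂ, x ≠ 0 → ∃ i, eval x (pderiv i F) ≠ 0)
    (hsG : ∀ x : σ → ℂ, x ≠ 0 → ∃ i, eval x (pderiv i G) ≠ 0)
    (hA : F ∣ aeval φ G) (hB : G ∣ aeval ψ F) (hd : m + 2 ≤ d ∨ m' + 2 ≤ e) :
    m = 1 ∧ m' = 1 ∧ ∃ c : ℂ, c ≠ 0 ∧ aeval φ G = C c * F := by
  obtain ⟨A, hA⟩ := hA
  obtain ⟨B, hB⟩ := hB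
  have ne0 : ∀ F : MvPolynomial σ ℂ, (∀ x : σ → ℂ, x ≠ 0 → ∃ i, eval x (pderiv i F) ≠ 0) →
      F ≠ 0 := by
    rintro F hs rfl
    obtain ⟨i, hi⟩ := hs 1 one_ne_zero
    simp at hi
  obtain ⟨h1, h2, h3, h4⟩ := half hφh hψh hψ hh hh' hinv hinv' hF hG (ne0 F hsF) hsF hA hB
  obtain ⟨h5, h6, h7, h8⟩ := half hψh hφh hφ hh' hh hinv' hinv hG hF (ne0 G hsG) hsG hB hA
  have h9 := totalDegree_le_of_dvd_of_isDomain h2 hh'
  have h10 := totalDegree_le_of_dvd_of_isDomain h6 hh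
  have hmm : h.totalDegree = 0 := by
    by_contra hne
    have h11 : h'.totalDegree = h.totalDegree := by rw [mul_comm] at h1; omega
    set t := h.totalDegree
    have h12 : m' * d ≤ e + t := by omega
    have h13 : m * e ≤ d + t := by omega
    have ht : 1 ≤ t := by omega
    rcases hd with hd | hd
    · have h14 : m * (m' * d) ≤ m * (e + t) := Nat.mul_le_mul_left _ h12
      have h15 : m * (m' * d) = (t + 1) * d := by rw [← mul_assoc, ← h5]
      have h16 : t * (m + 2) ≤ t * d := Nat.mul_le_mul_left _ hd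
      nlinarith
    · have h14 : m' * (m * e) ≤ m' * (d + t) := Nat.mul_le_mul_left _ h13
      have h15 : m' * (m * e) = (t + 1) * e := by rw [← mul_assoc, mul_comm m', ← h5]
      have h16 : t * (m' + 2) ≤ t * e := Nat.mul_le_mul_left _ hd
      nlinarith
  rw [hmm, zero_add] at h5
  refine ⟨Nat.eq_one_of_mul_eq_one_right h5.symm, Nat.eq_one_of_mul_eq_one_left h5.symm, ?_⟩
  have h11 : A = C (coeff 0 A) := totalDegree_eq_zero_iff_eq_C.1 (by omega)
  refine ⟨coeff 0 A, fun h0 => h7 (by rw [h11, h0, map_zero]), ?_⟩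
  rw [hA, ← h11, mul_comm]

end Pool.Agent.Lib.MP_51c9ba_ag
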