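import Mathlib
import Pool.Agent.Lib.MP_51c9ba_ag.Main
import Pool.Agent.Lib.MP_51c9ba_ag.Depth

namespace Pool.Agent.Lib.MP_51c9ba_ag

open MvPolynomial Finset

section general

variable {σ : Type}

theorem comp_mul {b : MvPolynomial σ ℂ} {β : ℕ} (hb : b.IsHomogeneous β) (q : MvPolynomial σ ℂ)
    (n : ℕ) : homogeneousComponent n (b * q) =
      if β ≤ n then b * homogeneousComponent (n - β) q else 0 := by
  conv_lhs => rw [← sum_homogeneousComponent q, mul_sum, map_sum]
  have h1 : ∀ i, homogeneousComponent n (b * homogeneousComponent i q) =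
      if n = β + i then b * homogeneousComponent i q else 0 := fun i =>
    homogeneousComponent_of_mem (hb.mul (homogeneousComponent_isHomogeneous i q))
  simp only [h1]
  split_ifs with h
  · rw [sum_eq_single (n - β)]
    · rw [if_pos (by omega)]
    · intro i _ hi; rw [if_neg (by omega)]
    · intro hn
      rw [mem_range] at hn
      rw [homogeneousComponent_eq_zero _ _ (by omega)]; simp
  · exact sum_eq_zero fun i _ => if_neg (by omega)

theorem dvd_comp {F z : MvPolynomial σ ℂ} {d : ℕ} (hF : F.IsHomogeneous d) (h : F ∣ z) (n : ℕ) :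
    F ∣ homogeneousComponent n z := by
  obtain ⟨r, rfl⟩ := h
  rw [comp_mul hF]
  split_ifs
  · exact dvd_mul_right _ _
  · exact dvd_zero _

theorem dvd_of_deg_lt {F a b q : MvPolynomial σ ℂ} {d α β : ℕ} (hF : F.IsHomogeneous d)
    (ha : a.IsHomogeneous α) (hb : b.IsHomogeneous β) (hlt : α < β) (h : F ∣ a - b * q) :
    F ∣ a := by
  have := dvd_comp hF h α
  rwa [map_sub, comp_mul hb, if_neg (by omega), sub_zero, homogeneousComponent_eq_self ha] at this

theorem quot_homog {F u : MvPolynomial σ ℂ} {d D : ℕ} (hF : F.IsHomogeneous d) (h0 : F ≠ 0)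
    (h : (F * u).IsHomogeneous D) : u.IsHomogeneous (D - d) ∧ (u ≠ 0 → d ≤ D) := by
  have h1 := homogeneousComponent_eq_self h
  rw [comp_mul hF] at h1
  split_ifs at h1 with hd
  · refine ⟨?_, fun _ => hd⟩
    rw [← mul_left_cancel₀ h0 h1]
    exact homogeneousComponent_isHomogeneous _ _
  · have hu : u = 0 := (mul_eq_zero.1 h1.symm).resolve_left h0
    exact ⟨hu ▸ isHomogeneous_zero _ _ _, fun hne => absurd hu hne⟩

theorem dvd_aeval_sub {G : MvPolynomial σ ℂ} {a b : σ → MvPolynomial σ ℂ}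
    (h : ∀ j, G ∣ a j - b j) (f : MvPolynomial σ ℂ) : G ∣ aeval a f - aeval b f := by
  induction f using MvPolynomial.induction_on with
  | C c => simp
  | add f g hf hg =>
    have := dvd_add hf hg
    convert this using 1
    simp only [map_add]; ring
  | mul_X f i hf =>
    have := dvd_add (hf.mul_right (a i)) ((h i).mul_left (aeval b f))
    convert this using 1
    simp only [map_mul, aeval_X]; ring

/-- the composite of the two substitutions is a scaling modulo the equation -/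
theorem dvd_round {G h' f : MvPolynomial σ ℂ} {φ ψ : σ → MvPolynomial σ ℂ} {k : ℕ}
    (hinv' : ∀ l, G ∣ aeval ψ (φ l) - h' * X l) (hf : f.IsHomogeneous k) :
    G ∣ aeval ψ (aeval φ f) - h' ^ k * f := by
  rw [aeval_aeval, ← aeval_scale hf]
  exact dvd_aeval_sub hinv' f

theorem dvd_back {F G h f : MvPolynomial σ ℂ} {φ ψ : σ → MvPolynomial σ ℂ} {k : ℕ}
    (hp : Prime F) (hh : ¬ F ∣ h) (hA : F ∣ aeval φ G)
    (hinv : ∀ l, F ∣ aeval φ (ψ l) - h * X l) (hf : f.IsHomogeneous k)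
    (hG : G ∣ aeval ψ f) : F ∣ f := by
  have h1 : F ∣ aeval φ (aeval ψ f) := hA.trans (map_dvd (aeval φ) hG)
  have h2 : F ∣ h ^ k * f := by
    have := dvd_sub h1 (dvd_round hinv hf)
    rwa [sub_sub_cancel] at this
  exact (hp.dvd_or_dvd h2).resolve_left fun h3 => hh (hp.dvd_of_dvd_pow h3)

variable [Fintype σ] [DecidableEq σ]

theorem pderiv_aeval' (i : σ) (ψ : σ → MvPolynomial σ ℂ) (f : MvPolynomial σ ℂ) :
    pderiv i (aeval ψ f) = ∑ j, aeval ψ (pderiv j f) * pderiv i (ψ j) := by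
  have h1 : ∀ g : MvPolynomial σ ℂ, dv (Pi.single i 1) g = pderiv i g := by
    intro g
    simp [dv, Pi.single_apply]
  rw [← h1, dv_aeval]
  simp only [h1]

omit [DecidableEq σ] in
theorem mem_of_grad {F : MvPolynomial σ ℂ} {P : Ideal (MvPolynomial σ ℂ)} (hP : P.IsPrime)
    (hs : ∀ x : σ → ℂ, x ≠ 0 → ∃ i, eval x (pderiv i F) ≠ 0) {ψ : σ → MvPolynomial σ ℂ}
    (hall : ∀ i, aeval ψ (pderiv i F) ∈ P) (j : σ) : ψ j ∈ P := by
  let I : Ideal (MvPolynomial σ ℂ) := Ideal.span (Set.range fun i => pderiv i F)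
  have hX : (X j : MvPolynomial σ ℂ) ∈ I.radical := by
    rw [← vanishingIdeal_zeroLocus_eq_radical (K := ℂ), mem_vanishingIdeal_iff]
    intro x hx
    have : x = 0 := by
      by_contra hne
      obtain ⟨i, hi⟩ := hs x hne
      exact hi (by simpa using hx _ (Ideal.subset_span ⟨i, rfl⟩))
    simp [this]
  obtain ⟨s, hs⟩ := hX
  have hI : I ≤ Ideal.comap (aeval ψ : MvPolynomial σ ℂ →ₐ[ℂ] MvPolynomial σ ℂ) P := by
    rw [Ideal.span_le]
    rintro _ ⟨i, rfl⟩
    exact hall i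
  have : aeval ψ (X j ^ s) ∈ P := hI hs
  rw [map_pow, aeval_X] at this
  exact hP.mem_of_pow_mem _ this

end general

variable {N : ℕ}

/-- a form of small degree which becomes divisible by `b` after multiplication with the pulled
back gradient vanishes on the hypersurface -/
theorem key_deg {F G a b : MvPolynomial (Fin (N + 1)) ℂ}
    {ψ : Fin (N + 1) → MvPolynomial (Fin (N + 1)) ℂ} {e α β : ℕ}
    (hG : G.IsHomogeneous e) (hp : Prime G)
    (hs : ∀ x : Fin (N + 1) → ℂ, x ≠ 0 → ∃ i, eval x (pderiv i F) ≠ 0)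
    (hψ : ∀ P : Ideal (MvPolynomial (Fin (N + 1)) ℂ), P.IsPrime → G ∈ P → (∀ j, ψ j ∈ P) →
      3 ≤ P.height)
    (ha : a.IsHomogeneous α) (hb : b.IsHomogeneous β) (hlt : α < β) (hb0 : ¬ G ∣ b)
    (h : ∀ i, ∃ q, G ∣ aeval ψ (pderiv i F) * a - b * q) : G ∣ a := by
  obtain ⟨q, hq⟩ := mem_of_height hG hp hb0 (Set.range fun i => aeval ψ (pderiv i F))
    (by rintro _ ⟨i, rfl⟩; exact h i)
    (fun P hP hGP hT => hψ P hP hGP (mem_of_grad hP hs fun i => hT ⟨i, rfl⟩))
  exact dvd_of_deg_lt hG ha hb hlt hq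

/-- the degree inequality coming from a nonvanishing normal derivative -/
theorem ineq {F G A h h' : MvPolynomial (Fin (N + 1)) ℂ}
    {φ ψ : Fin (N + 1) → MvPolynomial (Fin (N + 1)) ℂ} {d e m m' t : ℕ} (ht : t + 1 = m * m')
    (hφh : ∀ j, (φ j).IsHomogeneous m) (hψh : ∀ j, (ψ j).IsHomogeneous m')
    (hF : F.IsHomogeneous d) (hG : G.IsHomogeneous e) (hpF : Prime F) (hpG : Prime G)
    (hsF : ∀ x : Fin (N + 1) → ℂ, x ≠ 0 → ∃ i, eval x (pderiv i F) ≠ 0)
    (hψ : ∀ P : Ideal (MvPolynomial (Fin (N + 1)) ℂ), P.IsPrime → G ∈ P → (∀ j, ψ j ∈ P) →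
      3 ≤ P.height)
    (hh : ¬ F ∣ h) (hh' : ¬ G ∣ h') (hth' : h'.IsHomogeneous t)
    (hinv : ∀ l, F ∣ aeval φ (ψ l) - h * X l) (hinv' : ∀ l, G ∣ aeval ψ (φ l) - h' * X l)
    (hA : aeval φ G = F * A) (hB : G ∣ aeval ψ F) (hA0 : ¬ F ∣ A) :
    A.IsHomogeneous (m * e - d) ∧ d ≤ m * e ∧ t * (e - 1) ≤ m' * (m * e - d) := by
  obtain ⟨hAh, hle⟩ := quot_homog hF hpF.ne_zero (hA ▸ hG.aeval φ hφh)
  refine ⟨hAh, hle fun h0 => hA0 (h0 ▸ dvd_zero _), ?_⟩
  by_contra hlt
  push Not at hlt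
  refine hA0 (dvd_back hpF hh ⟨A, hA⟩ hinv hAh ?_)
  refine key_deg hG hpG hsF hψ (hAh.aeval ψ hψh) (hth'.pow (e - 1)) hlt
    (fun h3 => hh' (hpG.dvd_of_dvd_pow h3)) fun i => ?_
  refine ⟨∑ j, pderiv j G * aeval ψ (pderiv i (φ j)), ?_⟩
  have h1 := congrArg (fun z => aeval ψ (pderiv i z)) hA
  simp only [pderiv_aeval', Derivation.leibniz, smul_eq_mul, map_add, map_mul, map_sum] at h1
  have h2 : G ∣ ∑ j, (aeval ψ (aeval φ (pderiv j G)) - h' ^ (e - 1) * pderiv j G) *
      aeval ψ (pderiv i (φ j)) :=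
    dvd_sum fun j _ => (dvd_round hinv' (hG.pderiv (i := j))).mul_right _
  have h3 := dvd_sub h2 (hB.mul_right (aeval ψ (pderiv i A)))
  convert h3 using 1
  simp only [sub_mul, sum_sub_distrib, mul_sum, mul_assoc]
  linear_combination -h1

/-- in small degree both normal derivatives are nonzero -/
theorem nonvanish {F G A B h h' : MvPolynomial (Fin (N + 1)) ℂ}
    {φ ψ : Fin (N + 1) → MvPolynomial (Fin (N + 1)) ℂ} {d e m m' t : ℕ} (ht : t + 1 = m * m')
    (hφh : ∀ j, (φ j).IsHomogeneous m) (hψh : ∀ j, (ψ j).IsHomogeneous m')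
    (hF : F.IsHomogeneous d) (hG : G.IsHomogeneous e) (hpF : Prime F) (hpG : Prime G)
    (hsF : ∀ x : Fin (N + 1) → ℂ, x ≠ 0 → ∃ i, eval x (pderiv i F) ≠ 0)
    (hψ : ∀ P : Ideal (MvPolynomial (Fin (N + 1)) ℂ), P.IsPrime → G ∈ P → (∀ j, ψ j ∈ P) →
      3 ≤ P.height)
    (hh : ¬ F ∣ h) (hh' : ¬ G ∣ h') (hth : h.IsHomogeneous t) (hth' : h'.IsHomogeneous t)
    (hinv : ∀ l, F ∣ aeval φ (ψ l) - h * X l) (hinv' : ∀ l, G ∣ aeval ψ (φ l) - h' * X l)
    (hA : aeval φ G = F * A) (hB : aeval ψ F = G * B) (hd : m + 2 ≤ d) :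
    ¬ F ∣ aeval φ B * A := by
  have hinv0 := hinv
  choose u hu using hinv0
  have hm' : 1 ≤ m' := by
    rcases Nat.eq_zero_or_pos m' with h0 | h0
    · rw [h0] at ht; omega
    · exact h0
  have hFX : ∀ k, ¬ F ∣ X k := by
    intro k hk
    have := totalDegree_le_of_dvd_of_isDomain hk (X_ne_zero k)
    rw [totalDegree_X, hF.totalDegree hpF.ne_zero] at this
    omega
  have huh : ∀ k, (u k).IsHomogeneous (t + 1 - d) ∧ (u k ≠ 0 → d ≤ t + 1) := by
    intro k
    refine quot_homog hF hpF.ne_zero ?_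
    rw [← hu k]
    refine IsHomogeneous.sub ?_ (hth.mul (isHomogeneous_X ℂ k))
    rw [ht]; exact (hψh k).aeval φ hφh
  have hE : ∀ i k, ∑ j, aeval φ (pderiv j (ψ k)) * pderiv i (φ j) =
      h * pderiv i (X k) + X k * pderiv i h + F * pderiv i (u k) + u k * pderiv i F := by
    intro i k
    have h1 := congrArg (pderiv i) (hu k)
    simp only [map_sub, pderiv_aeval', Derivation.leibniz, smul_eq_mul] at h1
    linear_combination h1
  have hw : ∀ k l, F ∣ X k * u l - X l * u k := by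
    intro k l
    by_cases hD : d ≤ t + 1
    swap
    · have h0 : ∀ k, u k = 0 := fun k => by
        by_contra hne; exact hD ((huh k).2 hne)
      simp [h0]
    have hwh : (X k * u l - X l * u k).IsHomogeneous (1 + (t + 1 - d)) :=
      ((isHomogeneous_X ℂ k).mul (huh l).1).sub ((isHomogeneous_X ℂ l).mul (huh k).1)
    refine dvd_back hpF hh ⟨A, hA⟩ hinv hwh ?_
    refine key_deg hG hpG hsF hψ (hwh.aeval ψ hψh) (hth'.pow (m' - 1)) ?_
      (fun h3 => hh' (hpG.dvd_of_dvd_pow h3)) fun i => ?_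
    · obtain ⟨s, rfl⟩ : ∃ s, m' = s + 1 := ⟨m' - 1, by omega⟩
      obtain ⟨r, hr⟩ : ∃ r, t + 1 = d + r := ⟨t + 1 - d, by omega⟩
      rw [show t + 1 - d = r by omega, Nat.add_sub_cancel]
      have h1 : (s + 1) * (m + 2) ≤ (s + 1) * d := Nat.mul_le_mul_left _ hd
      nlinarith
    · let S : Fin (N + 1) → MvPolynomial (Fin (N + 1)) ℂ := fun k =>
        ∑ j, pderiv j (ψ k) * aeval ψ (pderiv i (φ j))
      have h1 : ∀ k, G ∣ h' ^ (m' - 1) * S k - (aeval ψ h *
          aeval ψ (pderiv i (X k : MvPolynomial (Fin (N + 1)) ℂ)) +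
          ψ k * aeval ψ (pderiv i h) + aeval ψ (u k) * aeval ψ (pderiv i F)) := by
        intro k
        have h2 := congrArg (aeval ψ) (hE i k)
        simp only [map_add, map_mul, map_sum, aeval_X] at h2
        have h3 : G ∣ ∑ j, (aeval ψ (aeval φ (pderiv j (ψ k))) -
            h' ^ (m' - 1) * pderiv j (ψ k)) * aeval ψ (pderiv i (φ j)) :=
          dvd_sum fun j _ => (dvd_round hinv' ((hψh k).pderiv (i := j))).mul_right _
        have h4 := dvd_sub ((Dvd.intro _ hB.symm).mul_right (aeval ψ (pderiv i (u k)))) h3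
        convert h4 using 1
        simp only [S, sub_mul, sum_sub_distrib, mul_sum, mul_assoc]
        linear_combination h2
      have h5 : ∀ k, G ∣ aeval ψ h * ψ k - h' ^ (m' - 1) * h' * ψ k := by
        intro k
        have h2 := congrArg (aeval ψ) (hu k)
        simp only [map_sub, map_mul, aeval_X] at h2
        have h3 := dvd_round hinv' (hψh k)
        have h4 := dvd_sub h3 ((Dvd.intro _ hB.symm).mul_right (aeval ψ (u k)))
        rw [← pow_succ, show m' - 1 + 1 = m' by omega]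
        convert h4 using 1
        linear_combination -h2
      refine ⟨ψ k * S l - ψ l * S k -
        aeval ψ (pderiv i (X l : MvPolynomial (Fin (N + 1)) ℂ)) * h' * ψ k +
        aeval ψ (pderiv i (X k : MvPolynomial (Fin (N + 1)) ℂ)) * h' * ψ l, ?_⟩
      have h6 := dvd_add (dvd_sub ((h1 k).mul_left (ψ l)) ((h1 l).mul_left (ψ k)))
        (dvd_sub ((h5 l).mul_left (aeval ψ (pderiv i (X k : MvPolynomial (Fin (N + 1)) ℂ))))
          ((h5 k).mul_left (aeval ψ (pderiv i (X l : MvPolynomial (Fin (N + 1)) ℂ)))))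
      convert h6 using 1
      simp only [map_sub, map_mul, aeval_X]
      ring
  have hEu : F ∣ ∑ l, X l * pderiv l F := by
    rw [hF.sum_X_mul_pderiv, nsmul_eq_mul]; exact dvd_mul_left _ _
  have hu0 : F ∣ ∑ l, u l * pderiv l F := by
    refine (hpF.dvd_or_dvd (?_ : F ∣ X 0 * _)).resolve_left (hFX 0)
    have h1 : F ∣ ∑ l, (X 0 * u l - X l * u 0) * pderiv l F :=
      dvd_sum fun l _ => (hw 0 l).mul_right _
    have h2 := dvd_add h1 (hEu.mul_left (u 0))
    convert h2 using 1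
    simp only [mul_sum, ← sum_add_distrib]
    exact sum_congr rfl fun l _ => by ring
  let b : Fin (N + 1) → MvPolynomial (Fin (N + 1)) ℂ := fun j =>
    ∑ k, pderiv k F * aeval φ (pderiv j (ψ k))
  have hb1 : ∀ i, F ∣ ∑ j, b j * pderiv i (φ j) - h * pderiv i F := by
    intro i
    have h1 : ∑ j, b j * pderiv i (φ j) = ∑ k, pderiv k F * (h * pderiv i (X k) +
        X k * pderiv i h + F * pderiv i (u k) + u k * pderiv i F) := by
      simp only [b, sum_mul, ← hE, mul_sum, mul_assoc]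
      exact sum_comm
    have h2 : ∑ k, pderiv k F * (h * pderiv i (X k)) = h * pderiv i F := by
      rw [sum_eq_single i]
      · simp [mul_comm]
      · intro k _ hk; simp [pderiv_X, Pi.single_apply, hk]
      · simp
    have h3 := dvd_add (dvd_add (hEu.mul_right (pderiv i h)) (hu0.mul_right (pderiv i F)))
      (dvd_mul_right F (∑ k, pderiv k F * pderiv i (u k)))
    convert h3 using 1
    rw [h1, ← h2]
    simp only [sum_mul, mul_sum, ← sum_add_distrib, ← sum_sub_distrib]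
    exact sum_congr rfl fun l _ => by ring
  have hb2 : ∀ j, F ∣ h ^ (d - 1) * b j - aeval φ B * aeval φ (pderiv j G) := by
    intro j
    have h1 := congrArg (fun z => aeval φ (pderiv j z)) hB
    simp only [pderiv_aeval', Derivation.leibniz, smul_eq_mul, map_add, map_mul, map_sum] at h1
    have h2 : F ∣ ∑ k, (aeval φ (aeval ψ (pderiv k F)) - h ^ (d - 1) * pderiv k F) *
        aeval φ (pderiv j (ψ k)) :=
      dvd_sum fun k _ => (dvd_round hinv (hF.pderiv (i := k))).mul_right _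
    have h3 := dvd_sub ((Dvd.intro _ hA.symm).mul_right (aeval φ (pderiv j B))) h2
    convert h3 using 1
    simp only [b, sub_mul, sum_sub_distrib, mul_sum, mul_assoc]
    linear_combination h1
  have hb3 : ∀ i, F ∣ ∑ j, aeval φ (pderiv j G) * pderiv i (φ j) - A * pderiv i F := by
    intro i
    have h1 := congrArg (pderiv i) hA
    simp only [pderiv_aeval', Derivation.leibniz, smul_eq_mul] at h1
    exact ⟨pderiv i A, by linear_combination h1⟩
  intro hcon
  obtain ⟨i, hi⟩ := exists_pderiv_not_dvd hpF hsF (ψ := X) fun hall => hFX 0 (hall 0)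
  rw [aeval_X_left_apply] at hi
  have h1 : F ∣ h ^ (d - 1) * h * pderiv i F := by
    have h2 : F ∣ ∑ j, (h ^ (d - 1) * b j - aeval φ B * aeval φ (pderiv j G)) * pderiv i (φ j) :=
      dvd_sum fun j _ => (hb2 j).mul_right _
    have h3 := dvd_add (dvd_add (dvd_sub h2 ((hb1 i).mul_left (h ^ (d - 1))))
      ((hb3 i).mul_left (aeval φ B))) (hcon.mul_right (pderiv i F))
    convert h3 using 1
    simp only [sub_mul, mul_sub, sum_sub_distrib, mul_sum, mul_assoc]
    ring
  rcases hpF.dvd_or_dvd h1 with h2 | h2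
  · rw [← pow_succ] at h2
    exact hh (hpF.dvd_of_dvd_pow h2)
  · exact hi h2

theorem low_half {F G A B h h' : MvPolynomial (Fin (N + 1)) ℂ}
    {φ ψ : Fin (N + 1) → MvPolynomial (Fin (N + 1)) ℂ} {d e m m' t : ℕ} (ht : t + 1 = m * m')
    (hφh : ∀ j, (φ j).IsHomogeneous m) (hψh : ∀ j, (ψ j).IsHomogeneous m')
    (hF : F.IsHomogeneous d) (hG : G.IsHomogeneous e) (hpF : Prime F) (hpG : Prime G)
    (hsF : ∀ x : Fin (N + 1) → ℂ, x ≠ 0 → ∃ i, eval x (pderiv i F) ≠ 0)
    (hsG : ∀ x : Fin (N + 1) → ℂ, x ≠ 0 → ∃ i, eval x (pderiv i G) ≠ 0)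
    (hφ : ∀ P : Ideal (MvPolynomial (Fin (N + 1)) ℂ), P.IsPrime → F ∈ P → (∀ j, φ j ∈ P) →
      3 ≤ P.height)
    (hψ : ∀ P : Ideal (MvPolynomial (Fin (N + 1)) ℂ), P.IsPrime → G ∈ P → (∀ j, ψ j ∈ P) →
      3 ≤ P.height)
    (hh : ¬ F ∣ h) (hh' : ¬ G ∣ h') (hth : h.IsHomogeneous t) (hth' : h'.IsHomogeneous t)
    (hinv : ∀ l, F ∣ aeval φ (ψ l) - h * X l) (hinv' : ∀ l, G ∣ aeval ψ (φ l) - h' * X l)
    (hA : aeval φ G = F * A) (hB : aeval ψ F = G * B) (hd : m + 2 ≤ d) :
    m = 1 ∧ m' = 1 ∧ d = e ∧ ¬ F ∣ A ∧ ¬ G ∣ B := by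
  have h0 := nonvanish ht hφh hψh hF hG hpF hpG hsF hψ hh hh' hth hth' hinv hinv' hA hB hd
  have hA0 : ¬ F ∣ A := fun h1 => h0 (h1.mul_left _)
  have hB0 : ¬ G ∣ B := fun h1 =>
    h0 (((Dvd.intro _ hA.symm).trans (map_dvd (aeval φ) h1)).mul_right _)
  obtain ⟨-, h1, h2⟩ := ineq ht hφh hψh hF hG hpF hpG hsF hψ hh hh' hth' hinv hinv' hA
    ⟨B, hB⟩ hA0
  obtain ⟨-, h3, h4⟩ := ineq (ht.trans (mul_comm _ _)) hψh hφh hG hF hpG hpF hsG hφ hh' hh hth
    hinv' hinv hB ⟨A, hA⟩ hB0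
  obtain ⟨a, ha⟩ : ∃ a, m * e = d + a := ⟨m * e - d, by omega⟩
  obtain ⟨b, hb⟩ : ∃ b, m' * d = e + b := ⟨m' * d - e, by omega⟩
  obtain ⟨d', rfl⟩ : ∃ d', d = d' + 1 := ⟨d - 1, by omega⟩
  obtain ⟨e', rfl⟩ : ∃ e', e = e' + 1 := by
    refine ⟨e - 1, ?_⟩
    rcases Nat.eq_zero_or_pos e with h5 | h5
    · rw [h5] at ha; omega
    · omega
  rw [show m * (e' + 1) - (d' + 1) = a by omega, Nat.add_sub_cancel] at h2
  rw [show m' * (d' + 1) - (e' + 1) = b by omega, Nat.add_sub_cancel] at h4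
  have h5 : m' * (m * (e' + 1)) = (t + 1) * (e' + 1) := by rw [ht]; ring
  have h6 : m * (m' * (d' + 1)) = (t + 1) * (d' + 1) := by rw [ht]; ring
  have h12 : m' * (d' + 1) ≤ e' + 1 + t := by
    rw [ha, mul_add] at h5; nlinarith
  have h13 : m * (e' + 1) ≤ d' + 1 + t := by
    rw [hb, mul_add] at h6; nlinarith
  have ht0 : t = 0 := by
    by_contra hne
    have ht1 : 1 ≤ t := by omega
    have h14 : m * (m' * (d' + 1)) ≤ m * (e' + 1 + t) := Nat.mul_le_mul_left _ h12
    have h16 : t * (m + 2) ≤ t * (d' + 1) := Nat.mul_le_mul_left _ hd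
    nlinarith
  subst ht0
  have hm : m = 1 := Nat.eq_one_of_mul_eq_one_right ht.symm
  have hm' : m' = 1 := Nat.eq_one_of_mul_eq_one_left ht.symm
  subst hm hm'
  exact ⟨rfl, rfl, by omega, hA0, hB0⟩

theorem three_le_height {n : ℕ} {P : Ideal (MvPolynomial (Fin (n + 3)) ℂ)} (hP : P.IsPrime)
    (hX : ∀ j, X j ∈ P) : 3 ≤ P.height := by
  let g : ℕ → (MvPolynomial (Fin (n + 3)) ℂ →ₐ[ℂ] MvPolynomial (Fin (n + 3)) ℂ) := fun k =>
    aeval fun i => if i.1 < k then 0 else X i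
  have hprime : ∀ k, (RingHom.ker (g k)).IsPrime := fun k => RingHom.ker_isPrime _
  have hlt : ∀ k, k < 3 → RingHom.ker (g k) < RingHom.ker (g (k + 1)) := by
    intro k hk
    have hc : (g (k + 1)).comp (g k) = g (k + 1) := by
      refine algHom_ext fun i => ?_
      by_cases hi : i.1 < k
      · simp only [g, AlgHom.comp_apply, aeval_X, if_pos hi, map_zero,
          if_pos (show i.1 < k + 1 by omega)]
      · simp [g, hi]
    refine lt_of_le_of_ne (fun z hz => ?_) fun heq => ?_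
    · rw [RingHom.mem_ker] at hz ⊢
      rw [← hc, AlgHom.comp_apply, hz, map_zero]
    · have h1 : X (⟨k, by omega⟩ : Fin (n + 3)) ∈ RingHom.ker (g (k + 1)) := by
        simp [RingHom.mem_ker, g]
      rw [← heq] at h1
      simp [RingHom.mem_ker, g] at h1
  have hle : RingHom.ker (g 3) ≤ P := by
    intro z hz
    rw [RingHom.mem_ker] at hz
    have h1 : (Ideal.Quotient.mkₐ ℂ P).comp (g 3) = Ideal.Quotient.mkₐ ℂ P := by
      refine algHom_ext fun i => ?_
      have h2 : Ideal.Quotient.mk P (X i) = 0 := Ideal.Quotient.eq_zero_iff_mem.2 (hX i)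
      by_cases hi : i.1 < 3
      · simp [g, hi, h2]
      · simp [g, hi]
    have h2 := AlgHom.congr_fun h1 z
    rw [AlgHom.comp_apply, hz, map_zero] at h2
    exact Ideal.Quotient.eq_zero_iff_mem.1 h2.symm
  have hstep : ∀ k, k < 3 → (RingHom.ker (g k)).height + 1 ≤ (RingHom.ker (g (k + 1))).height := by
    intro k hk
    have := hprime k
    have := hprime (k + 1)
    exact Ideal.height_add_one_le_of_lt_of_isPrime (hlt k hk)
  have h0 := hstep 0 (by omega)
  have h1 := hstep 1 (by omega)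
  have h2 := hstep 2 (by omega)
  calc (3 : ℕ∞) = 0 + 1 + 1 + 1 := by norm_num
    _ ≤ (RingHom.ker (g 0)).height + 1 + 1 + 1 := by gcongr; exact zero_le
    _ ≤ (RingHom.ker (g 1)).height + 1 + 1 := by gcongr
    _ ≤ (RingHom.ker (g 2)).height + 1 := by gcongr
    _ ≤ (RingHom.ker (g 3)).height := h2
    _ ≤ P.height := Ideal.height_mono hle

theorem eval_zero_of_factor {σ : Type} {F a b : MvPolynomial σ ℂ} {d : ℕ}
    (hF : F.IsHomogeneous d) (h0 : F ≠ 0) (hab : F = a * b) (ha : ¬ IsUnit a) :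
    eval 0 a = 0 := by
  by_contra hne
  apply ha
  have h1 : (a - C (eval 0 a)) * F = 0 := by
    refine MvPolynomial.funext fun x => ?_
    rw [map_mul, map_zero]
    by_cases hx : eval x F = 0
    · rw [hx, mul_zero]
    let r : MvPolynomial σ ℂ →ₐ[ℂ] Polynomial ℂ := aeval fun i => Polynomial.X * Polynomial.C (x i)
    have hr : ∀ (c : ℂ) (z : MvPolynomial σ ℂ), (r z).eval c = eval (fun i => c * x i) z := by
      intro c z
      induction z using MvPolynomial.induction_on with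
      | C a => simp [r]
      | add f g hf hg => simp only [map_add, Polynomial.eval_add, hf, hg]
      | mul_X f i hf =>
        have h5 : r (X i) = Polynomial.X * Polynomial.C (x i) := aeval_X _ _
        rw [map_mul, map_mul, Polynomial.eval_mul, hf, h5, eval_X, Polynomial.eval_mul,
          Polynomial.eval_X, Polynomial.eval_C]
    have hrF : r F = Polynomial.C (eval x F) * Polynomial.X ^ d := by
      refine Polynomial.funext fun c => ?_
      have h2 := congrArg (eval x) (aeval_scale hF (C c))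
      rw [hr]
      have h3 : eval x (aeval (fun i => C c * X i) F) = eval (fun i => c * x i) F := by
        generalize F = z
        induction z using MvPolynomial.induction_on with
        | C a => simp
        | add f g hf hg => simp only [map_add, hf, hg]
        | mul_X f i hf => simp only [map_mul, hf, aeval_X, eval_C, eval_X]
      rw [← h3, h2]
      simp only [map_mul, map_pow, eval_C, Polynomial.eval_mul, Polynomial.eval_C,
        Polynomial.eval_pow, Polynomial.eval_X, mul_comm]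
    have h2 : r a ∣ Polynomial.X ^ d := by
      have h3 : r a ∣ Polynomial.C (eval x F) * Polynomial.X ^ d := by
        rw [← hrF, hab, map_mul]; exact dvd_mul_right _ _
      rwa [(Polynomial.isUnit_C.2 (Ne.isUnit hx)).dvd_mul_left] at h3
    obtain ⟨i, -, hi⟩ := (dvd_prime_pow Polynomial.prime_X d).1 h2
    have h3 : (r a).eval 0 = eval 0 a := by rw [hr]; simp
    have hi0 : i = 0 := by
      by_contra hi0
      have h4 : Polynomial.X ∣ r a := (dvd_pow_self _ hi0).trans hi.symm.dvd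
      rw [Polynomial.X_dvd_iff, Polynomial.coeff_zero_eq_eval_zero, h3] at h4
      exact hne h4
    rw [hi0, pow_zero, associated_one_iff_isUnit, Polynomial.isUnit_iff] at hi
    obtain ⟨c, -, hc⟩ := hi
    have h4 := hr 1 a
    rw [← hc] at h3 h4
    simp only [Polynomial.eval_C, one_mul] at h3 h4
    rw [map_sub, eval_C, ← h3, h4]; simp
  rw [sub_eq_zero.1 ((mul_eq_zero.1 h1).resolve_right h0)]
  exact (Ne.isUnit hne).map _

/-- a smooth form in at least three variables is prime -/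
theorem prime_of_smooth {n d : ℕ} {F : MvPolynomial (Fin (n + 3)) ℂ} (hF : F.IsHomogeneous d)
    (hs : ∀ x : Fin (n + 3) → ℂ, x ≠ 0 → ∃ i, eval x (pderiv i F) ≠ 0) : Prime F := by
  classical
  obtain ⟨i0, hi0⟩ := hs 1 one_ne_zero
  have h0 : F ≠ 0 := by rintro rfl; simp at hi0
  refine Irreducible.prime ⟨fun hu => ?_, fun a b hab => ?_⟩
  · have h1 := totalDegree_le_of_dvd_of_isDomain hu.dvd (one_ne_zero (α := MvPolynomial _ ℂ))
    rw [totalDegree_one, Nat.le_zero, totalDegree_eq_zero_iff_eq_C] at h1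
    rw [h1] at hi0
    simp at hi0
  · by_contra hcon
    push Not at hcon
    have ha := eval_zero_of_factor hF h0 hab hcon.1
    have hb := eval_zero_of_factor hF h0 (hab.trans (mul_comm _ _)) hcon.2
    have hpr : (RingHom.ker (eval (0 : Fin (n + 3) → ℂ))).IsPrime := RingHom.ker_isPrime _
    have hle : Ideal.span (({a, b} : Finset (MvPolynomial (Fin (n + 3)) ℂ)) : Set _) ≤
        RingHom.ker (eval (0 : Fin (n + 3) → ℂ)) := by
      rw [Ideal.span_le]
      intro z hz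
      simp only [coe_insert, coe_singleton, Set.mem_insert_iff, Set.mem_singleton_iff] at hz
      rcases hz with rfl | rfl
      · exact ha
      · exact hb
    obtain ⟨P, hP, -⟩ := Ideal.exists_minimalPrimes_le hle
    have h2 := Ideal.height_le_card_of_mem_minimalPrimes_span_finset hP
    have haP : a ∈ P := hP.1.2 (Ideal.subset_span (by simp))
    have hbP : b ∈ P := hP.1.2 (Ideal.subset_span (by simp))
    have h3 := three_le_height hP.1.1 (mem_of_grad hP.1.1 hs (ψ := X) fun i => by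
      rw [aeval_X_left_apply, hab, Derivation.leibniz, smul_eq_mul, smul_eq_mul]
      exact P.add_mem (P.mul_mem_right _ haP) (P.mul_mem_right _ hbP))
    have h4 : (({a, b} : Finset (MvPolynomial (Fin (n + 3)) ℂ)).card : ℕ∞) ≤ 2 := by
      exact_mod_cast Finset.card_le_two
    exact absurd (h3.trans (h2.trans h4)) (by decide)

/-- a tuple of forms proportional to the coordinates on the hypersurface is a multiple of them -/
theorem exists_factor {n d D : ℕ} {F : MvPolynomial (Fin (n + 3)) ℂ} (hF : F.IsHomogeneous d)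
    (hp : Prime F) {a : Fin (n + 3) → MvPolynomial (Fin (n + 3)) ℂ}
    (ha : ∀ k, (a k).IsHomogeneous D) (hprop : ∀ k l, F ∣ a k * X l - a l * X k)
    (hne : ∃ k, ¬ F ∣ a k) :
    ∃ h : MvPolynomial (Fin (n + 3)) ℂ, 1 ≤ D ∧ h.IsHomogeneous (D - 1) ∧ ¬ F ∣ h ∧
      ∀ l, F ∣ a l - h * X l := by
  classical
  obtain ⟨k, hk⟩ := hne
  obtain ⟨k0, hk0⟩ : ∃ k0, ¬ F ∣ X k0 := by
    by_contra hall
    push Not at hall
    have hP : (Ideal.span {F}).IsPrime := (Ideal.span_singleton_prime hp.ne_zero).2 hp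
    have h3 := three_le_height hP fun j => Ideal.mem_span_singleton.2 (hall j)
    have h2 := Ideal.height_le_card_of_mem_minimalPrimes_span_finset (s := {F})
      (p := Ideal.span {F}) (by simp [Ideal.minimalPrimes_eq_subsingleton_self])
    exact absurd (h3.trans h2) (by simp)
  obtain ⟨q, hq⟩ := mem_of_height (a := a k0) hF hp hk0 (Set.range X)
    (by
      rintro _ ⟨l, rfl⟩
      exact ⟨a l, by convert hprop k0 l using 1; ring⟩)
    (fun P hP _ hT => three_le_height hP fun j => hT ⟨j, rfl⟩)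
  have h1 : ∀ l, F ∣ a l - X l * q := by
    intro l
    refine (hp.dvd_or_dvd (?_ : F ∣ X k0 * _)).resolve_left hk0
    convert dvd_sub (hq.mul_left (X l)) (hprop k0 l) using 1
    ring
  have h2 : ∀ l, F ∣ a l - (if 1 ≤ D then X l * homogeneousComponent (D - 1) q else 0) := by
    intro l
    have := dvd_comp hF (h1 l) D
    rwa [map_sub, comp_mul (isHomogeneous_X ℂ l), homogeneousComponent_eq_self (ha l)] at this
  by_cases hD : 1 ≤ D
  · simp only [if_pos hD] at h2
    refine ⟨homogeneousComponent (D - 1) q, hD, homogeneousComponent_isHomogeneous _ _,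
      fun h3 => hk ?_, fun l => by rw [mul_comm]; exact h2 l⟩
    simpa using dvd_add (h2 k) (h3.mul_left (X k))
  · simp only [if_neg hD, sub_zero] at h2
    exact absurd (h2 k) hk

theorem low_main {n d e m m' : ℕ} {F G : MvPolynomial (Fin (n + 3)) ℂ}
    {φ ψ : Fin (n + 3) → MvPolynomial (Fin (n + 3)) ℂ}
    (hF : F.IsHomogeneous d) (hG : G.IsHomogeneous e)
    (hsF : ∀ x : Fin (n + 3) → ℂ, x ≠ 0 → ∃ i, eval x (pderiv i F) ≠ 0)
    (hsG : ∀ x : Fin (n + 3) → ℂ, x ≠ 0 → ∃ i, eval x (pderiv i G) ≠ 0)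
    (hφh : ∀ j, (φ j).IsHomogeneous m) (hψh : ∀ j, (ψ j).IsHomogeneous m')
    (hφ : ∀ P : Ideal (MvPolynomial (Fin (n + 3)) ℂ), P.IsPrime → F ∈ P → (∀ j, φ j ∈ P) →
      3 ≤ P.height)
    (hψ : ∀ P : Ideal (MvPolynomial (Fin (n + 3)) ℂ), P.IsPrime → G ∈ P → (∀ j, ψ j ∈ P) →
      3 ≤ P.height)
    (hA : F ∣ aeval φ G) (hB : G ∣ aeval ψ F)
    (hinv : ∀ k l, F ∣ aeval φ (ψ k) * X l - aeval φ (ψ l) * X k)
    (hne : ∃ k, ¬ F ∣ aeval φ (ψ k))
    (hinv' : ∀ k l, G ∣ aeval ψ (φ k) * X l - aeval ψ (φ l) * X k)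
    (hne' : ∃ k, ¬ G ∣ aeval ψ (φ k))
    (hd : m + 2 ≤ d ∨ m' + 2 ≤ e) :
    m = 1 ∧ m' = 1 ∧ ∃ c : ℂ, c ≠ 0 ∧ aeval φ G = C c * F := by
  have hpF := prime_of_smooth hF hsF
  have hpG := prime_of_smooth hG hsG
  obtain ⟨h, h1, hth, hh, hi⟩ := exists_factor hF hpF (fun k => (hψh k).aeval φ hφh) hinv hne
  obtain ⟨h', -, hth', hh', hi'⟩ := exists_factor hG hpG (fun k => (hφh k).aeval ψ hψh) hinv' hne'
  rw [mul_comm m' m] at hth'
  have ht : m * m' - 1 + 1 = m * m' := by omega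
  obtain ⟨A, hA⟩ := hA
  obtain ⟨B, hB⟩ := hB
  have key : m = 1 ∧ m' = 1 ∧ d = e ∧ ¬ F ∣ A := by
    rcases hd with hd | hd
    · obtain ⟨h2, h3, h4, h5, -⟩ := low_half ht hφh hψh hF hG hpF hpG hsF hsG hφ hψ hh hh' hth hth'
        hi hi' hA hB hd
      exact ⟨h2, h3, h4, h5⟩
    · obtain ⟨h2, h3, h4, -, h5⟩ := low_half (ht.trans (mul_comm _ _)) hψh hφh hG hF hpG hpF hsG
        hsF hψ hφ hh' hh hth' hth hi' hi hB hA hd
      exact ⟨h3, h2, h4.symm, h5⟩
  obtain ⟨rfl, rfl, rfl, hA0⟩ := key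
  refine ⟨rfl, rfl, ?_⟩
  have h2 := (quot_homog hF hpF.ne_zero (hA ▸ hG.aeval φ hφh)).1
  rw [one_mul, Nat.sub_self] at h2
  have h3 : A = C (coeff 0 A) := totalDegree_eq_zero_iff_eq_C.1 (Nat.le_zero.1 h2.totalDegree_le)
  refine ⟨coeff 0 A, fun h0 => hA0 ?_, ?_⟩
  · rw [h3, h0, map_zero]; exact dvd_zero _
  · rw [hA, ← h3, mul_comm]

end Pool.Agent.Lib.MP_51c9ba_ag
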